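import Pool.Agent.H491R4.AF4
import Pool.Agent.TH375.KL.Core

/-! # The Kloosterman angles for almost all members of automatic sets: all intervals, all `x` up to a power of `N`, with
square-root error

Katz's question is about the angles `θ_p(a)` of the Kloosterman sums `S(a, 1; p)` for a fixed integer `a` and varying primes
`p`. Here `a` runs through an arbitrary automatic set `S` (the set of the integers whose digits in a base `b` are accepted by a
finite automaton) of more than polylogarithmic size; such sets may have as few as `N ^ c` elements below `N`, with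
arbitrarily small `c > 0`.

Definitions used: in `Pool.Agent.H491R4.AF` (file `Pool/Agent/H491R4/AF2.lean`): `acc b M N E`: the number of the
integers `v < N` accepted by the automaton `M` (reading the digits of `v` in base `b`, the least significant digit first)
with the property `E`; `AlmostS b M N κ c τ P`: the proportion of the `v < N` accepted by `M` for which `c + κ v` does not
have the property `P` is at most `τ`. Library: TH375 (moments of Kloosterman sums). -/

set_option autoImplicit false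

namespace Pool.Agent.Results.MP_6ea630_nt.AutomaticFamilies

open Finset Filter Pool.Agent.R459.Eq Pool.Agent.H491R4.AF
open Pool.Agent.TH375.KL (rk KK sign_mean)

/-- The Kloosterman sum `S(n, 1; p)`. -/
noncomputable def kloosterman (p : ℕ) (n : ℤ) : ℝ :=
  ∑ x ∈ Ico 1 p, Real.cos (2 * Real.pi * ((((n : ZMod p) * (x : ZMod p) + (x : ZMod p)⁻¹).val : ℕ) : ℝ) / (p : ℝ))

open Classical in
/-- The angle `θ` in `[0, π]` with `2 p ^ (1 / 2) cos θ = S(n, 1; p)`, and `π / 2` if `p` divides `n`. -/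
noncomputable def angle (p : ℕ) (n : ℤ) : ℝ :=
  if (p : ℤ) ∣ n then Real.pi / 2 else Real.arccos (kloosterman p n / (2 * √p))

open Classical in
/-- The number of the primes `p ≤ x` for which the angle is in `[u, v)`. -/
noncomputable def angleCount (n : ℤ) (x : ℕ) (u v : ℝ) : ℕ :=
  ((range (x + 1)).filter (fun p : ℕ => p.Prime ∧ u ≤ angle p n ∧ angle p n < v)).card

open Classical in
/-- The proportion of the residues modulo `p` for which the angle is in `[u, v)`. -/
noncomputable def proportion (p : ℕ) (u v : ℝ) : ℝ :=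
  (((range p).filter (fun t : ℕ => u ≤ angle p (t : ℤ) ∧ angle p (t : ℤ) < v)).card : ℝ) / (p : ℝ)

open Classical in
/-- The expected number: the sum of the proportions over the primes `p ≤ x`. -/
noncomputable def model (x : ℕ) (u v : ℝ) : ℝ := ∑ p ∈ (range (x + 1)).filter Nat.Prime, proportion p u v

open Classical in
/-- The number of the primes `p ≤ x` which do not divide `n` and for which `σ S(n, 1; p) > l p ^ (1 / 2)`. -/
noncomputable def signCount (σ l : ℝ) (n : ℤ) (x : ℕ) : ℕ :=
  ((range (x + 1)).filter (fun p : ℕ => p.Prime ∧ ¬ (p : ℤ) ∣ n ∧ l * √p < σ * kloosterman p n)).card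

lemma kl_eq {p : ℕ} [hp : Fact p.Prime] (n : ℤ) : kloosterman p n = rk p (n : ZMod p) 1 := by
  unfold kloosterman rk KK Pool.Agent.Helper916.Kl
  rw [Complex.re_sum]
  have h1 : ∀ z : ZMod p, (ZMod.stdAddChar ((n : ZMod p) * z + 1 * z⁻¹) : ℂ).re =
      Real.cos (2 * Real.pi * ((((n : ZMod p) * z + z⁻¹).val : ℕ) : ℝ) / (p : ℝ)) := by
    intro z
    rw [one_mul, ZMod.stdAddChar_apply, ZMod.toCircle_apply]
    have h2 : (2 * (Real.pi : ℂ) * Complex.I * (((n : ZMod p) * z + z⁻¹).val : ℂ) / (p : ℂ)) =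
        ((2 * Real.pi * ((((n : ZMod p) * z + z⁻¹).val : ℕ) : ℝ) / (p : ℝ) : ℝ) : ℂ) * Complex.I := by
      push_cast
      ring
    rw [h2, Complex.exp_ofReal_mul_I_re]
  rw [Finset.sum_congr rfl fun z _ => h1 z]
  refine Finset.sum_nbij' (fun x => (x : ZMod p)) ZMod.val ?_ ?_ ?_ ?_ ?_
  · intro x hx
    rw [Finset.mem_Ico] at hx
    rw [Finset.mem_erase]
    refine ⟨?_, Finset.mem_univ _⟩
    intro h0
    rw [ZMod.natCast_eq_zero_iff] at h0
    exact absurd (Nat.le_of_dvd hx.1 h0) (not_le.2 hx.2)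
  · intro z hz
    rw [Finset.mem_erase] at hz
    rw [Finset.mem_Ico]
    exact ⟨Nat.pos_of_ne_zero fun h0 => hz.1 ((ZMod.val_eq_zero z).1 h0), ZMod.val_lt z⟩
  · intro x hx
    rw [Finset.mem_Ico] at hx
    exact ZMod.val_cast_of_lt hx.2
  · intro z _
    exact ZMod.natCast_zmod_val z
  · intro x _
    rfl

lemma kl_sys {p : ℕ} {m n : ℤ} (h : (p : ℤ) ∣ m - n) : kloosterman p m = kloosterman p n := by
  have : ((m : ℤ) : ZMod p) = ((n : ℤ) : ZMod p) := by
    rw [← sub_eq_zero, ← Int.cast_sub, ZMod.intCast_zmod_eq_zero_iff_dvd]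
    exact h
  unfold kloosterman
  rw [this]

lemma dvd_sys {p : ℕ} {m n : ℤ} (h : (p : ℤ) ∣ m - n) : ((p : ℤ) ∣ m) ↔ ((p : ℤ) ∣ n) := by
  have h2 := dvd_sub_comm.1 h
  constructor
  · intro h1
    have := dvd_sub h1 h
    rwa [sub_sub_cancel] at this
  · intro h1
    have := dvd_sub h1 h2
    rwa [sub_sub_cancel] at this

lemma angle_sys : Sys angle := by
  intro p _ m n h
  unfold angle
  rw [kl_sys h]
  simp only [dvd_sys h]

open Classical in
/-- the signed sums -/
noncomputable def sgn (σ : ℝ) (p : ℕ) (n : ℤ) : ℝ := if (p : ℤ) ∣ n then 0 else -(σ * kloosterman p n / √p)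

lemma sgn_sys (σ : ℝ) : Sys (sgn σ) := by
  intro p _ m n h
  unfold sgn
  rw [kl_sys h]
  simp only [dvd_sys h]

lemma sgn_iff (σ l : ℝ) (hl : 0 ≤ l) (p : ℕ) (hp : p.Prime) (n : ℤ) : sgn σ p n < -l ↔ (¬ (p : ℤ) ∣ n ∧ l * √p < σ * kloosterman p n) := by
  have hs : 0 < √(p : ℝ) := Real.sqrt_pos.2 (by exact_mod_cast hp.pos)
  unfold sgn
  by_cases h : (p : ℤ) ∣ n
  · rw [if_pos h]
    constructor
    · intro h1
      linarith
    · rintro ⟨h1, _⟩
      exact absurd h h1
  · rw [if_neg h, neg_lt_neg_iff, lt_div_iff₀ hs]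
    simp only [h, not_false_eq_true, true_and]

/-- the proportion of the residues with a given sign -/
lemma sgn_prp (σ l : ℝ) (hσ : σ = 1 ∨ σ = -1) (hl : 0 ≤ l) (p : ℕ) (hp : p.Prime) :
    1 / 4 - l - 2 * (1 / √p) ≤ prp (sgn σ) p (-l) := by
  classical
  haveI : Fact p.Prime := ⟨hp⟩
  haveI : NeZero p := ⟨hp.ne_zero⟩
  have hp0 : (0 : ℝ) < p := by exact_mod_cast hp.pos
  have hσ2 : σ ^ 2 = 1 := by rcases hσ with h | h <;> rw [h] <;> norm_num
  have h1 := sign_mean (p := p) hσ2 hl
  obtain ⟨g, hg⟩ : ∃ g : (p : ℕ) → ZMod p → ℝ, g = fun p z => if z = 0 then 0 else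
    -(σ * (∑ x ∈ Ico 1 p, Real.cos (2 * Real.pi * (((z * (x : ZMod p) + (x : ZMod p)⁻¹).val : ℕ) : ℝ) / (p : ℝ))) / √p) := ⟨_, rfl⟩
  have e1 : prp (sgn σ) p (-l) = prp (fun p n => g p (n : ZMod p)) p (-l) := by
    unfold prp
    congr 2
    apply congrArg
    apply filter_congr
    intro t _
    have : sgn σ p (t : ℤ) = g p ((t : ℤ) : ZMod p) := by
      rw [hg]
      unfold sgn kloosterman
      simp only [ZMod.intCast_zmod_eq_zero_iff_dvd]
    rw [this]
  rw [e1, prp_of g p hp, le_div_iff₀ hp0]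
  have h2 : ∀ t : ZMod p, (if l * √p < σ * rk p t 1 then (1 : ℝ) else 0) ≤ (if g p t < -l then (1 : ℝ) else 0) + if t = 0 then 1 else 0 := by
    intro t
    have hs : 0 < √(p : ℝ) := Real.sqrt_pos.2 hp0
    by_cases h0 : t = 0
    · rw [if_pos h0]
      split_ifs <;> norm_num
    · rw [if_neg h0, add_zero]
      by_cases h3 : l * √p < σ * rk p t 1
      · rw [if_pos h3, if_pos]
        rw [hg]
        simp only
        rw [if_neg h0, neg_lt_neg_iff, lt_div_iff₀ hs]
        have h4 : rk p t 1 = ∑ x ∈ Ico 1 p, Real.cos (2 * Real.pi * (((t * (x : ZMod p) + (x : ZMod p)⁻¹).val : ℕ) : ℝ) / (p : ℝ)) := by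
          have h5 := kl_eq (p := p) ((t.val : ℕ) : ℤ)
          rw [Int.cast_natCast, ZMod.natCast_zmod_val] at h5
          rw [← h5]
          unfold kloosterman
          rw [Int.cast_natCast, ZMod.natCast_zmod_val]
        rw [← h4]
        exact h3
      · rw [if_neg h3]
        split_ifs <;> norm_num
  have h3 : ∑ t : ZMod p, (if l * √p < σ * rk p t 1 then (1 : ℝ) else 0) ≤ (∑ t : ZMod p, if g p t < -l then (1 : ℝ) else 0) + 1 := by
    refine (sum_le_sum fun t _ => h2 t).trans ?_
    rw [sum_add_distrib]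
    simp
  have h4 : (1 / 4 - l - 1 / √p) * p ≤ ∑ t : ZMod p, if l * √p < σ * rk p t 1 then (1 : ℝ) else 0 := by
    convert h1
  have h5 : 1 ≤ (1 / √(p : ℝ)) * p := by
    have hs : 0 < √(p : ℝ) := Real.sqrt_pos.2 hp0
    have h6 : √(p : ℝ) * √(p : ℝ) = p := Real.mul_self_sqrt hp0.le
    have h7 : 1 ≤ √(p : ℝ) := by
      rw [Real.one_le_sqrt]
      exact_mod_cast hp.one_le
    rw [one_div, ← h6, ← mul_assoc, Real.sqrt_mul_self hs.le, inv_mul_cancel₀ hs.ne', one_mul]
    exact h7
  linarith

/-- **The Kloosterman angles for almost all members of automatic sets.** Let `S` be the set of the integers `v ≥ 0` whose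
digits in base `b ≥ 2` are accepted by a finite automaton `M`, and suppose that `S` has more than polylogarithmic size: for
every `k` there are infinitely many `N` such that more than `(log N) ^ k` elements of `S` are smaller than `N`. There are `W`
and `e` such that for `κ ≠ 0`, `0 < δ ≤ 1 / 2` and all sufficiently large `X` the following holds for all `N` and all `c`. Almost all
the `n = c + κ v` with `v ∈ S`, `v < N`, up to a proportion of at most `3 (log N) ^ e X ^ (- δ)`, have for ALL `x ≥ X` with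
`x ^ W ≤ N` the following two properties.

(1) For ALL intervals `[u, v)` the number of the primes `p ≤ x` whose angle is in `[u, v)` differs from the sum over the primes
`p ≤ x` of the proportions of the residues modulo `p` whose angle is in `[u, v)` by at most `2 x ^ (1 / 2 + δ)`.

(2) For both signs `s` and ALL `l ≥ 0`, `s S(n, 1; p) > l p ^ (1 / 2)` for at least `(1 / 4 - l) π(x) - 5 x ^ (1 / 2 + δ)` of the
primes `p ≤ x`. -/
theorem result {σ : Type} [Fintype σ] (b : ℕ) (hb : 2 ≤ b) (M : DFA ℕ σ)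
    (hS : ∀ k : ℕ, ∃ᶠ N : ℕ in atTop, Real.log N ^ k < (acc b M N (fun _ => True) : ℝ)) : ∃ W e : ℕ, 1 ≤ W ∧
    ∀ κ : ℤ, κ ≠ 0 → ∀ δ : ℝ, 0 < δ → δ ≤ 1 / 2 → ∃ X₀ : ℕ, ∀ X : ℕ, X₀ ≤ X → ∀ N : ℕ, ∀ c : ℤ,
    AlmostS b M N κ c (3 * Real.log N ^ e * (X : ℝ) ^ (-δ)) (fun n => ∀ x : ℕ, X ≤ x → x ^ W ≤ N →
      (∀ u v : ℝ, u ≤ v → |(angleCount n x u v : ℝ) - model x u v| ≤ 2 * (x : ℝ) ^ (1 / 2 + δ)) ∧
      (∀ s : ℝ, s = 1 ∨ s = -1 → ∀ l : ℝ, 0 ≤ l →
        (1 / 4 - l) * Nat.primeCounting x - 5 * (x : ℝ) ^ (1 / 2 + δ) ≤ signCount s l n x)) := by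
  classical
  obtain ⟨W, e, hW, H⟩ := ang_aut b hb M hS
  refine ⟨W, e, hW, fun κ hκ δ hδ hδ1 => ?_⟩
  obtain ⟨X₀, J⟩ := H κ hκ δ hδ hδ1
  refine ⟨X₀ + 1, fun X hX N c => ?_⟩
  obtain ⟨a, ha⟩ : ∃ a : Fin 3 → ℕ → ℤ → ℝ, a = ![angle, sgn 1, sgn (-1)] := ⟨_, rfl⟩
  have ha0 : a 0 = angle := by rw [ha]; rfl
  have ha1 : a 1 = sgn 1 := by rw [ha]; rfl
  have ha2 : a 2 = sgn (-1) := by rw [ha]; rfl
  have h1 := J X (by omega) N c 3 a (by
    intro j
    fin_cases j
    · exact ha0 ▸ angle_sys
    · exact ha1 ▸ sgn_sys 1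
    · exact ha2 ▸ sgn_sys (-1))
  push_cast at h1
  have hpi : ∀ x : ℕ, ((range (x + 1)).filter Nat.Prime) = pri x := fun x => by unfold pri; congr!
  have key : ∀ n : ℤ, (∀ x : ℕ, X ≤ x → x ^ W ≤ N → ∀ (j : Fin 3) (u : ℝ),
      |(cntA (a j) n x u : ℝ) - ∑ p ∈ pri x, prp (a j) p u| ≤ (x : ℝ) ^ (1 / 2 + δ)) →
      ∀ x : ℕ, X ≤ x → x ^ W ≤ N →
      (∀ u v : ℝ, u ≤ v → |(angleCount n x u v : ℝ) - model x u v| ≤ 2 * (x : ℝ) ^ (1 / 2 + δ)) ∧
      (∀ σ : ℝ, σ = 1 ∨ σ = -1 → ∀ l : ℝ, 0 ≤ l →
        (1 / 4 - l) * Nat.primeCounting x - 5 * (x : ℝ) ^ (1 / 2 + δ) ≤ signCount σ l n x) := by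
    intro n hn x hXx hxW
    have hx1 : (1 : ℝ) ≤ x := by exact_mod_cast (by omega : 1 ≤ x)
    constructor
    · intro u v huv
      have h2 := hn x hXx hxW 0 u
      have h3 := hn x hXx hxW 0 v
      rw [ha0] at h2 h3
      have e1 : (angleCount n x u v : ℝ) = (cntA angle n x v : ℝ) - cntA angle n x u := by
        unfold angleCount cntA
        have e2 : (((pri x).filter (fun p => angle p n < u)).card : ℝ) + (((range (x + 1)).filter
            (fun p : ℕ => p.Prime ∧ u ≤ angle p n ∧ angle p n < v)).card : ℝ) = (((pri x).filter (fun p => angle p n < v)).card : ℝ) := by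
          rw [← Nat.cast_add, ← card_union_of_disjoint]
          · congr 2
            ext p
            simp only [mem_union, mem_filter, mem_range, mem_pri]
            constructor
            · rintro (⟨h4, h5⟩ | ⟨h4, h5, h6, h7⟩)
              · exact ⟨h4, by linarith⟩
              · exact ⟨⟨by omega, h5⟩, h7⟩
            · rintro ⟨⟨h4, h5⟩, h6⟩
              by_cases h7 : angle p n < u
              · left
                exact ⟨⟨h4, h5⟩, h7⟩
              · right
                exact ⟨by omega, h5, not_lt.1 h7, h6⟩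
          · rw [Finset.disjoint_left]
            intro p hp hp'
            rw [mem_filter] at hp hp'
            linarith [hp.2, hp'.2.2.1]
        linarith
      have e3 : ∀ p : ℕ, proportion p u v = prp angle p v - prp angle p u := by
        intro p
        unfold proportion prp
        rw [← sub_div]
        congr 1
        have e2 : (((range p).filter (fun t : ℕ => angle p (t : ℤ) < u)).card : ℝ) + (((range p).filter
            (fun t : ℕ => u ≤ angle p (t : ℤ) ∧ angle p (t : ℤ) < v)).card : ℝ) = (((range p).filter (fun t : ℕ => angle p (t : ℤ) < v)).card : ℝ) := by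
          rw [← Nat.cast_add, ← card_union_of_disjoint]
          · congr 2
            ext t
            simp only [mem_union, mem_filter, mem_range]
            constructor
            · rintro (⟨h4, h5⟩ | ⟨h4, h6, h7⟩)
              · exact ⟨h4, by linarith⟩
              · exact ⟨h4, h7⟩
            · rintro ⟨h4, h6⟩
              by_cases h7 : angle p (t : ℤ) < u
              · left
                exact ⟨h4, h7⟩
              · right
                exact ⟨h4, not_lt.1 h7, h6⟩
          · rw [Finset.disjoint_left]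
            intro t ht ht'
            rw [mem_filter] at ht ht'
            linarith [ht.2, ht'.2.1]
        linarith
      have e4 : model x u v = ∑ p ∈ pri x, prp angle p v - ∑ p ∈ pri x, prp angle p u := by
        unfold model
        rw [← sum_sub_distrib]
        have e5 : ((range (x + 1)).filter Nat.Prime) = pri x := by
          unfold pri
          congr!
        rw [e5]
        exact sum_congr rfl fun p _ => e3 p
      rw [e1, e4]
      rw [abs_le] at h2 h3 ⊢
      constructor <;> linarith [h2.1, h2.2, h3.1, h3.2]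
    · intro σ hσ l hl
      have h2 : |(cntA (sgn σ) n x (-l) : ℝ) - ∑ p ∈ pri x, prp (sgn σ) p (-l)| ≤ (x : ℝ) ^ (1 / 2 + δ) := by
        rcases hσ with h | h
        · rw [h, ← ha1]
          exact hn x hXx hxW 1 (-l)
        · rw [h, ← ha2]
          exact hn x hXx hxW 2 (-l)
      have e1 : signCount σ l n x = cntA (sgn σ) n x (-l) := by
        unfold signCount cntA
        congr 1
        ext p
        simp only [mem_filter, mem_range, mem_pri]
        constructor
        · rintro ⟨h3, h4, h5⟩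
          exact ⟨⟨by omega, h4⟩, (sgn_iff σ l hl p h4 n).2 h5⟩
        · rintro ⟨⟨h3, h4⟩, h5⟩
          exact ⟨by omega, h4, (sgn_iff σ l hl p h4 n).1 h5⟩
      have h3 : (1 / 4 - l) * Nat.primeCounting x - 4 * √x ≤ ∑ p ∈ pri x, prp (sgn σ) p (-l) := by
        have h4 : ∑ p ∈ pri x, (1 / 4 - l - 2 * (1 / √(p : ℝ))) ≤ ∑ p ∈ pri x, prp (sgn σ) p (-l) :=
          sum_le_sum fun p hp => sgn_prp σ l hσ hl p (mem_pri.1 hp).2
        have h5 : ∑ p ∈ pri x, (1 / 4 - l - 2 * (1 / √(p : ℝ))) = (1 / 4 - l) * Nat.primeCounting x - 2 * ∑ p ∈ pri x, 1 / √(p : ℝ) := by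
          rw [sum_sub_distrib, sum_const, nsmul_eq_mul, ← mul_sum]
          have e2 : (pri x).card = Nat.primeCounting x := by
            unfold pri Nat.primeCounting Nat.primeCounting'
            rw [Nat.count_eq_card_filter_range]
          rw [e2]
          ring
        have h6 := sum_sqrt x
        linarith
      have h4 : √(x : ℝ) ≤ (x : ℝ) ^ (1 / 2 + δ) := by
        rw [Real.sqrt_eq_rpow]
        exact Real.rpow_le_rpow_of_exponent_le hx1 (by linarith)
      rw [e1]
      rw [abs_le] at h2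
      linarith [h2.1]
  have h8 : 3 * Real.log N ^ e * (X : ℝ) ^ (-δ) = Real.log N ^ e * (3 * (X : ℝ) ^ (-δ)) := by ring
  rw [h8]
  exact AlmostS.mono h1 key

end Pool.Agent.Results.MP_6ea630_nt.AutomaticFamilies
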