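import Pool.Agent.R418.GE.B

set_option autoImplicit false

/-!
# Joint distribution of the Kloosterman angles of several polynomial arguments

Let `a_1, …, a_m` be ARBITRARY polynomials in `ℤ[t]` (no condition on the degrees or on the size of
the coefficients), or more generally pseudo-polynomials (sequences of integers with
`p ∣ a(t + p) - a(t)` for all primes `p`).  For almost all `j < N`, up to a proportion of at most
`X ^ (-A)` (any `A`), the following holds for ALL `x ≥ X` up to a fixed power of `N`, all intervals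
`[u_1, v_1), …, [u_m, v_m)` (of any length, possibly depending on `x` and `j`) and all residue
classes `c` modulo `q ≤ x`: the number of the primes `p ≤ x`, `p ≡ c` modulo `q`, for which the
Kloosterman angle `θ_p(a_i(j))` lies in `[u_i, v_i)` for all `i`, is the sum over the primes
`p ≤ x`, `p ≡ c` modulo `q`, of the exact proportion of the `t` modulo `p` with this property, with
an error of the size of the SQUARE ROOT of this sum (times `x ^ δ`).
-/

namespace Pool.Agent.Results.MP_6ea630_nt.JointPolynomialArguments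

open Finset Polynomial

/-- The Kloosterman sum `S(n, 1; p)` (a real number). -/
noncomputable def kloosterman (p : ℕ) (n : ℤ) : ℝ :=
  ∑ x ∈ Ico 1 p, Real.cos (2 * Real.pi *
    ((((n : ZMod p) * (x : ZMod p) + (x : ZMod p)⁻¹).val : ℕ) : ℝ) / (p : ℝ))

open Classical in
/-- The angle `θ` in `[0, π]` with `2 p ^ (1 / 2) cos θ = S(n, 1; p)`, and `π / 2` if `p ∣ n`. -/
noncomputable def angle (p : ℕ) (n : ℤ) : ℝ :=
  if (p : ℤ) ∣ n then Real.pi / 2 else Real.arccos (kloosterman p n / (2 * √p))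

/-- `p` is a prime congruent to `c` modulo `q`, and the angle of `a i` is in `[u i, v i)` for all
`i` -/
def Ev {m : ℕ} (u v : Fin m → ℝ) (q c p : ℕ) (a : Fin m → ℤ) : Prop :=
  p.Prime ∧ p % q = c ∧ ∀ i, u i ≤ angle p (a i) ∧ angle p (a i) < v i

open Classical in
/-- the number of the primes `p ≤ x` with `Ev` -/
noncomputable def count {m : ℕ} (u v : Fin m → ℝ) (q c : ℕ) (a : Fin m → ℤ) (x : ℕ) : ℕ :=
  ((range (x + 1)).filter (fun p => Ev u v q c p a)).card

open Classical in
/-- the sum over `p ≤ x` of the proportion of the `t` modulo `p` such that the values `a i t` have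
the property `Ev` -/
noncomputable def model {m : ℕ} (u v : Fin m → ℝ) (q c : ℕ) (a : Fin m → ℕ → ℤ) (x : ℕ) : ℝ :=
  ∑ p ∈ range (x + 1), (((range p).filter (fun t => Ev u v q c p (fun i => a i t))).card : ℝ) / p

/-- pseudo-polynomials -/
def Pseudo (f : ℕ → ℤ) : Prop := ∀ p t : ℕ, p.Prime → (p : ℤ) ∣ f (t + p) - f t

theorem pseudo_poly (f : ℤ[X]) : Pseudo (fun t => f.eval (t : ℤ)) := by
  intro p t _
  have h1 := Polynomial.sub_dvd_eval_sub ((t + p : ℕ) : ℤ) (t : ℤ) f
  have h2 : ((t + p : ℕ) : ℤ) - (t : ℤ) = p := by push_cast; ring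
  rwa [h2] at h1

theorem angle_congr (p : ℕ) {n n' : ℤ} (h : (p : ℤ) ∣ n' - n) : angle p n' = angle p n := by
  have e1 : ((n' : ℤ) : ZMod p) = ((n : ℤ) : ZMod p) := by
    rw [← sub_eq_zero, ← Int.cast_sub, ZMod.intCast_zmod_eq_zero_iff_dvd]
    exact h
  have h1 : (p : ℤ) ∣ n' ↔ (p : ℤ) ∣ n := by
    rw [← ZMod.intCast_zmod_eq_zero_iff_dvd, ← ZMod.intCast_zmod_eq_zero_iff_dvd, e1]
  unfold angle kloosterman
  rw [e1]
  simp only [h1]

theorem angle_lt (p : ℕ) (n : ℤ) : angle p n < 4 := by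
  have hpi := Real.pi_lt_four
  have hpi0 := Real.pi_pos
  unfold angle
  split_ifs
  · linarith
  · exact lt_of_le_of_lt (Real.arccos_le_pi _) hpi

open Classical in
/-- all angles at the primes up to `x`, and `4` -/
noncomputable def Th (x : ℕ) : Finset ℝ :=
  insert 4 ((range (x + 1)).biUnion fun p => (range p).image fun t : ℕ => angle p t)

theorem mem_Th {p x : ℕ} (hp : p.Prime) (hpx : p ≤ x) (n : ℤ) : angle p n ∈ Th x := by
  classical
  unfold Th
  rw [mem_insert, mem_biUnion]
  right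
  refine ⟨p, mem_range.mpr (by omega), ?_⟩
  rw [mem_image]
  have hp0 : (0 : ℤ) < p := by exact_mod_cast hp.pos
  refine ⟨(n % p).toNat, ?_, ?_⟩
  · rw [mem_range]
    have h1 := Int.emod_lt_of_pos n hp0
    have h2 := Int.emod_nonneg n hp0.ne'
    omega
  · have h2 := Int.emod_nonneg n hp0.ne'
    apply angle_congr
    rw [Int.toNat_of_nonneg h2]
    exact dvd_sub_comm.mp Int.dvd_self_sub_emod

theorem card_Th (x : ℕ) (hx : 3 ≤ x) : (Th x).card ≤ x ^ 3 := by
  classical
  unfold Th
  have h1 : ((range (x + 1)).biUnion fun p => (range p).image fun t : ℕ => angle p t).card ≤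
      (x + 1) * x := by
    refine card_biUnion_le.trans ?_
    refine (sum_le_sum (g := fun _ => x) fun p hp => ?_).trans ?_
    · rw [mem_range] at hp
      refine card_image_le.trans ?_
      rw [card_range]
      omega
    · rw [sum_const, card_range, smul_eq_mul]
  have h2 := card_insert_le (4 : ℝ)
    ((range (x + 1)).biUnion fun p => (range p).image fun t : ℕ => angle p t)
  have h3 : (x + 1) * x + 1 ≤ x ^ 3 := by nlinarith
  omega

open Classical in
/-- the smallest element of `Th x` which is at least `c`, or `4` -/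
noncomputable def snap (x : ℕ) (c : ℝ) : ℝ :=
  if h : ((Th x).filter (fun θ => c ≤ θ)).Nonempty then ((Th x).filter (fun θ => c ≤ θ)).min' h
  else 4

theorem snap_mem (x : ℕ) (c : ℝ) : snap x c ∈ Th x := by
  classical
  unfold snap
  split_ifs with h
  · exact (mem_filter.mp (min'_mem _ h)).1
  · unfold Th
    exact mem_insert_self _ _

theorem snap_le {p x : ℕ} (hp : p.Prime) (hpx : p ≤ x) (n : ℤ) (c : ℝ) :
    snap x c ≤ angle p n ↔ c ≤ angle p n := by
  classical
  have hm := mem_Th hp hpx n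
  unfold snap
  split_ifs with h
  · constructor
    · intro h1
      exact (mem_filter.mp (min'_mem _ h)).2.trans h1
    · intro h1
      exact min'_le _ _ (mem_filter.mpr ⟨hm, h1⟩)
  · constructor
    · intro h1
      exact absurd h1 (not_le.mpr (angle_lt p n))
    · intro h1
      exact absurd ⟨_, mem_filter.mpr ⟨hm, h1⟩⟩ h

theorem ev_snap {m : ℕ} (u v : Fin m → ℝ) (q c p x : ℕ) (hpx : p ≤ x) (a : Fin m → ℤ) :
    Ev (fun i => snap x (u i)) (fun i => snap x (v i)) q c p a ↔ Ev u v q c p a := by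
  unfold Ev
  refine and_congr_right fun hp => and_congr_right fun _ => forall_congr' fun i => ?_
  rw [snap_le hp hpx, ← not_le, snap_le hp hpx, not_le]

theorem count_snap {m : ℕ} (u v : Fin m → ℝ) (q c x : ℕ) (a : Fin m → ℤ) :
    count (fun i => snap x (u i)) (fun i => snap x (v i)) q c a x = count u v q c a x := by
  classical
  unfold count
  congr 1
  refine filter_congr fun p hp => ?_
  rw [mem_range] at hp
  exact ev_snap u v q c p x (by omega) a

theorem model_snap {m : ℕ} (u v : Fin m → ℝ) (q c x : ℕ) (a : Fin m → ℕ → ℤ) :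
    model (fun i => snap x (u i)) (fun i => snap x (v i)) q c a x = model u v q c a x := by
  classical
  unfold model
  refine sum_congr rfl fun p hp => ?_
  rw [mem_range] at hp
  congr 3
  refine filter_congr fun t _ => ?_
  exact ev_snap u v q c p x (by omega) _

theorem result :
    (∀ f : ℤ[X], Pseudo (fun t => f.eval (t : ℤ))) ∧
    ∀ (m A : ℕ) (δ : ℝ), 0 < δ → ∃ W X₀ : ℕ, 1 ≤ W ∧ ∀ a : Fin m → ℕ → ℤ,
      (∀ i, Pseudo (a i)) → ∀ X N : ℕ, X₀ ≤ X →
        (({j : ℕ | j < N ∧ ∃ x : ℕ, X ≤ x ∧ x ^ W ≤ N ∧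
          ∃ (u v : Fin m → ℝ) (q c : ℕ), 1 ≤ q ∧ q ≤ x ∧ c < q ∧
            √(max 1 (model u v q c a x)) * (x : ℝ) ^ δ <
              |(count u v q c (fun i => a i j) x : ℝ) - model u v q c a x|}).ncard : ℝ) *
                (X : ℝ) ^ A ≤ N := by
  classical
  refine ⟨pseudo_poly, ?_⟩
  intro m A δ hδ
  obtain ⟨W, X₀, hW, hX₀, hgen⟩ := Pool.Agent.R418.GE.general δ A (6 * m + 2) hδ
  refine ⟨W, max X₀ 3, hW, ?_⟩
  intro a ha X N hX
  have hX1 : X₀ ≤ X := (le_max_left _ _).trans hX
  have hX3 : 3 ≤ X := (le_max_right _ _).trans hX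
  obtain ⟨R, hR⟩ : ∃ R : ℕ → Finset (((Fin m → ℝ) × (Fin m → ℝ)) × ℕ × ℕ), R = fun x : ℕ =>
    if x < 3 then ∅ else ((Fintype.piFinset fun _ : Fin m => Th x) ×ˢ
      (Fintype.piFinset fun _ : Fin m => Th x)) ×ˢ (Icc 1 x ×ˢ range x) := ⟨_, rfl⟩
  obtain ⟨g, hg⟩ : ∃ g : ℕ → (((Fin m → ℝ) × (Fin m → ℝ)) × ℕ × ℕ) → ℕ → ℕ → ℝ, g = fun _ s p j =>
    if Ev s.1.1 s.1.2 s.2.1 s.2.2 p (fun i => a i j) then 1 else 0 := ⟨_, rfl⟩
  have hRc : ∀ x, (R x).card ≤ x ^ (6 * m + 2) := by
    intro x
    rw [hR]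
    simp only
    split_ifs with h
    · simp
    · push Not at h
      rw [card_product, card_product, card_product, Fintype.card_piFinset_const, Nat.card_Icc,
        card_range]
      have h2 := card_Th x h
      calc (Th x).card ^ m * (Th x).card ^ m * ((x + 1 - 1) * x) ≤
          (x ^ 3) ^ m * (x ^ 3) ^ m * (x * x) := by
            apply Nat.mul_le_mul (Nat.mul_le_mul (Nat.pow_le_pow_left h2 m)
              (Nat.pow_le_pow_left h2 m))
            rw [Nat.add_sub_cancel]
        _ = x ^ (6 * m + 2) := by rw [← pow_mul]; ring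
  have hsys : ∀ x s, Pool.Agent.R418.GE.Sys (g x s) := by
    intro x s
    rw [hg]
    refine ⟨fun p n => ?_, fun p hp n => ?_⟩
    · simp only
      split_ifs <;> norm_num
    · simp only
      have : Ev s.1.1 s.1.2 s.2.1 s.2.2 p (fun i => a i (n + p)) ↔
          Ev s.1.1 s.1.2 s.2.1 s.2.2 p (fun i => a i n) := by
        unfold Ev
        refine and_congr_right fun _ => and_congr_right fun _ => forall_congr' fun i => ?_
        rw [angle_congr p (ha i p n hp)]
      rw [if_congr this rfl rfl]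
  have hcnt : ∀ x s j, Pool.Agent.R418.GE.cnt (g x s) x j =
      (count s.1.1 s.1.2 s.2.1 s.2.2 (fun i => a i j) x : ℝ) := by
    intro x s j
    rw [Pool.Agent.R418.GE.cnt, hg, count, Pool.Agent.R418.GE.pr]
    simp only
    rw [← sum_filter, sum_const, nsmul_eq_mul, mul_one, filter_filter]
    congr 2
    refine filter_congr fun p _ => ?_
    exact ⟨fun h => h.2, fun h => ⟨h.1, h⟩⟩
  have hmdl : ∀ x s, Pool.Agent.R418.GE.mdl (g x s) x =
      model s.1.1 s.1.2 s.2.1 s.2.2 a x := by
    intro x s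
    rw [Pool.Agent.R418.GE.mdl, model, Pool.Agent.R418.GE.pr, sum_filter]
    refine sum_congr rfl fun p _ => ?_
    by_cases hp : p.Prime
    · rw [if_pos hp, Pool.Agent.R418.GE.mean, hg]
      simp only
      rw [← sum_filter, sum_const, nsmul_eq_mul, mul_one]
    · rw [if_neg hp]
      have : (range p).filter (fun t => Ev s.1.1 s.1.2 s.2.1 s.2.2 p (fun i => a i t)) = ∅ := by
        rw [filter_eq_empty_iff]
        intro t _ h
        exact hp h.1
      rw [this, card_empty, Nat.cast_zero, zero_div]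
  have hfin : ({j : ℕ | j < N ∧ ∃ x : ℕ, X ≤ x ∧ x ^ W ≤ N ∧
          ∃ (u v : Fin m → ℝ) (q c : ℕ), 1 ≤ q ∧ q ≤ x ∧ c < q ∧
            √(max 1 (model u v q c a x)) * (x : ℝ) ^ δ <
              |(count u v q c (fun i => a i j) x : ℝ) - model u v q c a x|} : Set ℕ).Finite :=
    (Set.finite_Iio N).subset fun j hj => hj.1
  rw [Set.ncard_eq_toFinset_card _ hfin]
  refine hgen _ R g hRc hsys X N hX1 _ fun j hj => ?_
  obtain ⟨hjN, x, hx1, hx2, u, v, q, c, hq1, hq2, hc, hbad⟩ :=
    (Set.Finite.mem_toFinset hfin).1 hj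
  refine ⟨hjN, x, hx1, hx2, ((fun i => snap x (u i), fun i => snap x (v i)), q, c), ?_, ?_⟩
  · have hx3 : ¬ x < 3 := by omega
    rw [hR]
    simp only
    rw [if_neg hx3, mem_product, mem_product, mem_product, Fintype.mem_piFinset,
      Fintype.mem_piFinset, mem_Icc, mem_range]
    exact ⟨⟨fun i => snap_mem x (u i), fun i => snap_mem x (v i)⟩, ⟨hq1, hq2⟩,
      lt_of_lt_of_le hc hq2⟩
  · rw [hcnt, hmdl]
    simp only
    rw [count_snap, model_snap]
    exact hbad

end Pool.Agent.Results.MP_6ea630_nt.JointPolynomialArguments
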