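import Pool.Agent.R385.TL.Sets

/-!
# The horizontal Sato–Tate law for Kloosterman angles and the frequency of large values

For an integer `a ≠ 0` and `0 ≤ α ≤ β ≤ π` let `U(t) = ∑ cos(t log p) / p` over the primes `p ∤ a` with
`α ≤ θ_p(a) ≤ β`.

`RareF κ U`: for some `c > 0` and all large `V`, the set where `U ≥ V` has, in every interval of length
at least `T₀(V)`, a proportion at most `exp(-exp(c exp(V / κ)))`.  `FreqF κ U`: the proportion is at
least this, for some `c > 0`.  `TailExponent κ U`: `RareF κ' U` for all `κ' > κ`, and `FreqF κ' U` for all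
`κ' < κ`.
-/

set_option autoImplicit false

namespace Pool.Agent.Results.MP_6ea630_nt.TailExponents

open MeasureTheory Filter Topology
open Pool.Agent.R385.TL Pool.Agent.R385.TL.Sets

/-- The Kloosterman sum `S(a, 1; p)`. -/
noncomputable def kloosterman (a : ℤ) (p : ℕ) : ℝ :=
  ∑ x ∈ Finset.Ico 1 p, Real.cos (2 * Real.pi *
    ((((a : ZMod p) * (x : ZMod p) + (x : ZMod p)⁻¹).val : ℕ) : ℝ) / (p : ℝ))

/-- The angle `θ_p(a)`, for `p ∤ a`. -/
noncomputable def angle (a : ℤ) (p : ℕ) : ℝ := Real.arccos (kloosterman a p / (2 * Real.sqrt (p : ℝ)))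

/-- The primes `p ∤ a` with `α ≤ θ_p(a) ≤ β`. -/
def primesIn (a : ℤ) (α β : ℝ) : Set ℕ :=
  {p : ℕ | p.Prime ∧ Nat.Coprime p a.natAbs ∧ α ≤ angle a p ∧ angle a p ≤ β}

theorem result (a : ℤ) (_ha : a ≠ 0) (α β : ℝ) (_hα : 0 ≤ α) (hαβ : α ≤ β) (_hβ : β ≤ Real.pi) :
    Laws (primesIn a α β) ∧
    (Tendsto (proportion (primesIn a α β)) atTop (𝓝 ((2 / Real.pi) * ∫ u in α..β, Real.sin u ^ 2)) ↔
      (∃ ρ : ℝ, Tendsto (proportion (primesIn a α β)) atTop (𝓝 ρ)) ∧
      TailExponent ((2 / Real.pi) * ∫ u in α..β, Real.sin u ^ 2) (U (primesIn a α β))) := by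
  have h1 : Laws (primesIn a α β) := laws fun p hp => hp.1
  refine ⟨h1, h1.2.2.2 _ ?_⟩
  refine mul_nonneg (by positivity) ?_
  exact intervalIntegral.integral_nonneg hαβ fun u _ => by positivity

end Pool.Agent.Results.MP_6ea630_nt.TailExponents
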